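import Pool.Agent.Lib.H77D5.C
import Pool.Agent.Lib.H47G5.Cv

/-!
# H77D5, file C2: the covering predicate of form D with cycles of length at least `5`, and reductions (MP_33911d)
-/

set_option autoImplicit false

namespace H77D5

open Finset H98M LD H85TF

variable {V : Type*} [Fintype V] [DecidableEq V]

theorem one_of {E : Finset (Sym2 V)} {A : Finset V} (h : H77D5.OneCyc E A) : H47G5.OneCyc E A := by
  obtain ⟨F, hF, S, -, hS2, hSn, hconn, hA⟩ := h
  have hmem : ∀ v, dg F v ≠ 0 → v ∈ S := by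
    intro v hv
    by_contra h
    exact hv (hSn v h)
  refine ⟨F, hF, ⟨?_, ?_⟩, fun v hv => hS2 v (hA hv)⟩
  · intro v
    by_cases hv : v ∈ S
    · exact Or.inr (hS2 v hv)
    · exact Or.inl (hSn v hv)
  · intro T hT x hx hx0 y hy0
    by_contra hy
    refine hconn ⟨S ∩ T, S \ T, ⟨x, mem_inter.2 ⟨hmem x hx0, hx⟩⟩, ⟨y, mem_sdiff.2 ⟨hmem y hy0, hy⟩⟩, ?_, ?_, ?_⟩
    · rw [disjoint_left]
      intro v h1 h2
      exact (mem_sdiff.1 h2).2 (mem_inter.1 h1).2
    · ext v
      simp only [mem_union, mem_inter, mem_sdiff]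
      constructor
      · rintro (h | h)
        · exact h.1
        · exact h.1
      · intro h
        by_cases h2 : v ∈ T
        · exact Or.inl ⟨h, h2⟩
        · exact Or.inr ⟨h, h2⟩
    · intro a ha b hb hab
      exact (mem_sdiff.1 hb).2 (hT a (mem_inter.1 ha).2 b hab)

theorem one_to {E : Finset (Sym2 V)} {A : Finset V} (h : H47G5.OneCyc E A) : A = ∅ ∨ H77D5.OneCyc E A := by
  obtain ⟨F, hF, ⟨hd, hT⟩, hA⟩ := h
  by_cases hA0 : A = ∅
  · exact Or.inl hA0
  · right
    obtain ⟨a, ha⟩ := nonempty_iff_ne_empty.2 hA0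
    have hd0 : ∀ {u v : V}, s(u, v) ∈ F → dg F v ≠ 0 := by
      intro u v h h0
      unfold dg at h0
      rw [card_eq_zero, filter_eq_empty_iff] at h0
      exact h0 h (by simp)
    refine ⟨F, hF, univ.filter (fun v => dg F v ≠ 0), ⟨a, ?_⟩, ?_, ?_, ?_, ?_⟩
    · rw [mem_filter]
      refine ⟨mem_univ _, ?_⟩
      rw [hA a ha]
      omega
    · intro v hv
      rw [mem_filter] at hv
      exact (hd v).resolve_left hv.2
    · intro v hv
      rw [mem_filter, not_and, not_not] at hv
      exact hv (mem_univ _)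
    · rintro ⟨C, D, ⟨x, hx⟩, ⟨y, hy⟩, hCD, hun, hno⟩
      have hx0 : x ∈ univ.filter (fun v => dg F v ≠ 0) := by rw [← hun]; exact mem_union_left _ hx
      have hy0 : y ∈ univ.filter (fun v => dg F v ≠ 0) := by rw [← hun]; exact mem_union_right _ hy
      refine disjoint_left.1 hCD (hT C ?_ x hx (mem_filter.1 hx0).2 y (mem_filter.1 hy0).2) hy
      intro u hu w huw
      have hw : w ∈ C ∪ D := by
        rw [hun, mem_filter]
        exact ⟨mem_univ _, hd0 huw⟩
      rcases mem_union.1 hw with h | h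
      · exact h
      · exact absurd huw (hno u hu w h)
    · intro v hv
      rw [mem_filter]
      refine ⟨mem_univ _, ?_⟩
      rw [hA v hv]
      omega

theorem oneCyc_empty (E : Finset (Sym2 V)) : H47G5.OneCyc E ∅ := by
  refine ⟨∅, empty_subset _, ⟨fun v => Or.inl (by simp [dg]), ?_⟩, fun v hv => absurd hv (notMem_empty v)⟩
  intro T _ x _ h
  exact absurd (by simp [dg]) h

theorem oneCyc_red {E : Finset (Sym2 V)} {Y : Finset V} {x y : V} {P Q A : Finset V}
    (hT : TCY E Y) (hs : Sep E Y x y P Q) (h : H47G5.OneCyc (red E Y x y Q) A) : H47G5.OneCyc E A := by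
  rcases one_to h with h1 | h1
  · rw [h1]
    exact oneCyc_empty E
  · exact one_of (onecyc_red hT hs h1)

/-- (S2) for `H47G5.Cv`. -/
theorem cv_red {E : Finset (Sym2 V)} {Y : Finset V} {x y : V} {P Q A : Finset V}
    (hT : TCY E Y) (hs : Sep E Y x y P Q) (h : H47G5.Cv (red E Y x y Q) A) : H47G5.Cv E A :=
  h.imp (cov5_red hT hs) (oneCyc_red hT hs)

end H77D5
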