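import Pool.Agent.Lib.H77D5.C2

/-!
# H77D5, file E: a 2-connected graph in which all degrees are `2` is a cycle (MP_33911d, form D5)
-/

set_option autoImplicit false

namespace H77D5

open Finset H98M LD H85TF

variable {V : Type*} [Fintype V] [DecidableEq V]

theorem oneCyc_all {E : Finset (Sym2 V)} {Y : Finset V} (hT : TCY E Y) (h2 : ∀ v ∈ Y, dg E v = 2) :
    H47G5.OneCyc E Y := by
  refine one_of ⟨E, subset_refl _, Y, ?_, h2, ?_, hT.conn, subset_refl _⟩
  · rw [← card_pos]
    have := hT.three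
    omega
  · intro v hv
    unfold dg
    rw [card_eq_zero, filter_eq_empty_iff]
    exact fun e he hve => hv (hT.sub e he v hve)

theorem cv_all {E : Finset (Sym2 V)} {Y A : Finset V} (hT : TCY E Y) (h2 : ∀ v ∈ Y, dg E v = 2)
    (hA : A ⊆ Y) : H47G5.Cv E A :=
  Or.inr (H47G5.oneCyc_sub hA (oneCyc_all hT h2))

end H77D5
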