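import Pool.Agent.Lib.H77D5.CF
import Pool.Agent.Lib.H36V.Fun7

/-!
# H77D5, file Abs7: the relative form with cycles of length at least five (MP_33911d), from the exchange lemma
-/

set_option autoImplicit false
set_option linter.unusedSectionVars false

open H53P SimpleDraw

namespace H77D5

open Finset H98P H98Z H98M H63F H30F H63L H97W H85TF LD H98TF H36V H77D4 H47G5

/-- The exchange lemma for `Cv` in 2-connected graphs. -/
def ExCv (V : Type) [Fintype V] [DecidableEq V] : Prop :=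
  ∀ (E : Finset (Sym2 V)) (Y A U : Finset V) (b d : V), TCY E Y → A ⊆ Y → U ⊆ Y → b ∈ U → d ∈ U →
    ¬ Disc U E → Cv E (insert b A) → Cv E (insert d A) →
    (∀ u ∈ U, u ≠ b → u ≠ d → ¬ Cv E (insert u A)) → Cv E (insert b (insert d A))

/-- The covering predicate. -/
def K5 {V : Type} [Fintype V] [DecidableEq V] (G : Finset (Sym2 V)) (Y W : Finset V) : Prop := Cv G (W ∩ Y)

section

variable {V : Type} [Fintype V] [DecidableEq V]

theorem kp5 : KP (K5 : Finset (Sym2 V) → Finset V → Finset V → Prop) where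
  sub hW h := cv_dn _ _ _ (inter_subset_inter_right hW) h
  mono hG h := cv_mono _ _ _ hG h
  two := by
    intro G Y W hT h2
    obtain ⟨T, hT1, hT2, hT3⟩ := exists_subsuperset_card_eq (n := 2) (s := W ∩ Y) (t := Y)
      inter_subset_right h2 (by have := hT.three; omega)
    obtain ⟨a, b, hab, rfl⟩ := card_eq_two.1 hT3
    exact cv_dn _ _ _ hT1 (Or.inr (H24A.oneCyc_two hT (hT2 (by simp)) (hT2 (by simp))))
  cyc := fun hT h2 => cv_all hT h2 inter_subset_right
  redn := by
    intro G Y W x y P Q hT hs hW h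
    have h2 : W ∩ (Y \ Q) = W ∩ Y := by
      ext w
      simp only [mem_inter, mem_sdiff]
      exact ⟨fun h3 => ⟨h3.1, h3.2.1⟩, fun h3 => ⟨h3.1, h3.2, disjoint_left.1 hW h3.1⟩⟩
    have h3 : Cv (red G Y x y Q) (W ∩ (Y \ Q)) := h
    rw [h2] at h3
    exact cv_red hT hs h3

theorem cv_sub_Y {E : Finset (Sym2 V)} {Y A : Finset V} (hT : TCY E Y) (h : Cv E A) : A ⊆ Y := by
  have key : ∀ F ⊆ E, (∀ v ∈ A, dg F v = 2) → A ⊆ Y := by
    intro F hF hA v hv
    have h1 : (F.filter fun e => v ∈ e).Nonempty := by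
      rw [← card_pos]
      have h2 : (F.filter fun e => v ∈ e).card = 2 := hA v hv
      omega
    obtain ⟨e, he⟩ := h1
    rw [mem_filter] at he
    exact hT.sub e (hF he.1) v he.2
  rcases h with ⟨F, hF, -, -, -, hA⟩ | ⟨F, hF, -, hA⟩
  · exact key F hF hA
  · exact key F hF hA

theorem u_sub_Y {E : Finset (Sym2 V)} {Y U : Finset V} {b : V} (hT : TCY E Y) (hbU : b ∈ U) (hbY : b ∈ Y)
    (hU : ¬ Disc U E) : U ⊆ Y := by
  intro u hu
  by_contra huY
  refine hU ⟨{u}, U.erase u, singleton_nonempty u, ⟨b, mem_erase.2 ⟨fun h => huY (h ▸ hbY), hbU⟩⟩, ?_, ?_, ?_⟩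
  · rw [disjoint_singleton_left]
    exact notMem_erase _ _
  · rw [← insert_eq, insert_erase hu]
  · intro a ha c _ hac
    rw [mem_singleton] at ha
    subst ha
    exact huY (hT.sub _ hac a (Sym2.mem_mk_left _ _))

/-- The base case of the lower links. -/
theorem ac7 (ex : ExCv V) {G : Finset (Sym2 V)} {Y M : Finset V} (hG : TCY G Y) (hMY : M ⊆ Y)
    (hM : ¬ Disc M G) (hK : ¬ K5 G Y M) : AC (Ch fun W : Finset V => ¬ K5 G Y W ∧ W ⊂ M) := by
  have hC : ¬ Cv G M := by
    intro h
    apply hK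
    unfold K5
    rwa [inter_eq_left.2 hMY]
  have hne : M.Nonempty := by
    rw [nonempty_iff_ne_empty]
    rintro rfl
    exact hC (Or.inl (H8F.cov5_empty G))
  obtain ⟨w, hw⟩ := hne
  have h1 := H96TF.ac_nf (G := G) (Pi := Cv G) (fun A B h hB => cv_dn _ _ _ h hB)
    (fun A b d U hb hd hbU hdU hU hin => by
      have hA := cv_sub_Y hG hb
      exact ex G Y A U b d hG (fun v hv => hA (mem_insert_of_mem hv))
        (u_sub_Y hG hbU (hA (mem_insert_self _ _)) hU) hbU hdU hU hb hd hin) M.card M ∅ rfl hM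
    ⟨w, hw, by
      have h2 := H24A.oneCyc_two hG (hMY hw) (hMY hw)
      rw [pair_eq_singleton] at h2
      exact Or.inr h2⟩ (by rw [union_empty]; exact hC)
  refine ac_congr (fun c => ?_) h1
  have e : (fun W' : Finset V => W' ⊆ M ∧ W' ≠ M ∧ ¬ Cv G (W' ∪ ∅)) =
      fun W : Finset V => ¬ K5 G Y W ∧ W ⊂ M := by
    funext W
    rw [union_empty]
    refine propext ⟨fun h => ⟨?_, Finset.ssubset_iff_subset_ne.2 ⟨h.1, h.2.1⟩⟩, fun h => ⟨h.2.1, h.2.ne, ?_⟩⟩
    · unfold K5
      rw [inter_eq_left.2 (h.1.trans hMY)]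
      exact h.2.2
    · have h3 := h.1
      unfold K5 at h3
      rwa [inter_eq_left.2 (h.2.1.trans hMY)] at h3
  rw [e]

/-- The lower links. -/
theorem L2_75 (ex : ExCv V) {E G : Finset (Sym2 V)} (hGE : G ⊆ E) (hG : TCY G univ)
    (hE : TCY E univ) {M : Finset V} (hM : ¬ Disc M G) (hU : U7 K5 E G univ M) :
    AC (Ch fun W : Finset V => (U7 K5 E G univ W ∨ X2 E univ W) ∧ W ⊂ M) :=
  l2u7 kp5 (fun _ _ _ _ _ hG _ _ hMY hM hK => ac7 ex hG hMY hM hK) (univ : Finset V).card E G univ M rfl hGE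
    hG hE (subset_univ M) hM hU

/-- All vertices on one cycle, at least five vertices. -/
theorem cov5_of_cv {G : Finset (Sym2 V)} (h5 : 5 ≤ Fintype.card V) (hG : ∀ e ∈ G, ¬ e.IsDiag)
    (h : Cv G univ) : H8F.Cov5 G univ := by
  rcases h with h | ⟨F, hF, h1, h2⟩
  · exact h
  · refine H63B.cov5_of_one hG hF h1 h2 ?_
    have h3 : (univ.filter fun v => dg F v = 2) = univ := by
      rw [filter_eq_self]
      exact h2
    rw [h3, card_univ]
    exact h5

/-- THE FUNCTOR STEP, relative to a graph `R`, with cycles of length at least five. -/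
theorem formD75 (ex : ExCv V) {cross : Sym2 V → Sym2 V → Prop}
    (hsymm : ∀ e f, cross e f → cross f e) (hHD : ∀ W, HD cross W) (h5 : 5 ≤ Fintype.card V)
    {R : Finset (Sym2 V)} (hR : R ⊆ LW univ) :
    ∃ G : Finset (Sym2 V), G ⊆ LW univ ∧ Plane cross G ∧ TC G ∧ 2 * Fintype.card V ≤ G.card + 3 ∧
      ((∃ F ⊆ G, R ⊆ F ∧ ¬ Disc univ F ∧ ∀ v, dg F v = 2) ∨
        (NoCut2 (G ∪ R) ∧ H8F.Cov5 G univ)) := by
  have hV : ∃ x y : V, x ≠ y := by
    obtain ⟨x, y, h⟩ := Fintype.exists_pair_of_one_lt_card (α := V) (by omega)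
    exact ⟨x, y, h⟩
  have hK := kp5 (V := V)
  obtain ⟨G, hGL, hGp, ⟨hT, hN⟩, hcard⟩ := exactX hsymm hHD hV
    (fun G W => Disc W G ∧ (TC G → U7 K5 (G ∪ R) G univ W ∨ X2 (G ∪ R) univ W))
    (fun G => TC G ∧ ((∃ F ⊆ G, R ⊆ F ∧ ¬ Disc univ F ∧ ∀ v, dg F v = 2) ∨
      (NoCut2 (G ∪ R) ∧ H8F.Cov5 G univ)))
    (fun G G' hGG _ W hW => ⟨H85TF.disc_anti hGG hW.1, fun hT =>
      (hW.2 (tc_mono hGG hT)).imp (fun h => h.anti hK (union_subset_union_left hGG) hGG)
        (fun h => h.anti (union_subset_union_left hGG))⟩)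
    (fun G W _ h => h.1)
    (fun G G' hGG _ h => ⟨tc_mono hGG h.1, h.2.imp (fun ⟨F, h1, h2⟩ => ⟨F, h1.trans hGG, h2⟩)
      (fun h => ⟨noCut2_mono (union_subset_union_left hGG) h.1, H8F.cov5_edges hGG h.2⟩)⟩)
    (fun G hGL hno => by
      have hEL : G ∪ R ⊆ LW univ := union_subset hGL hR
      by_cases hT : TC G
      · have hTE : TC (G ∪ R) := tc_mono subset_union_left hT
        have hYE := tcy_of_tc (by omega) hEL hTE
        have hYG := tcy_of_tc (by omega) hGL hT
        have hdx : ∀ {W : Finset V}, X2 (G ∪ R) univ W → Disc W G := fun h =>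
          H85TF.disc_anti subset_union_left (disc_of_x2 h)
        by_cases hU : U7 K5 (G ∪ R) G univ univ
        · refine ac_congr (fun t => ?_) (H30D.remove_univ
            (P := fun W => U7 K5 (G ∪ R) G univ W ∨ X2 (G ∪ R) univ W) (G := G) (fun M hM hMc => ?_) (Or.inl hU))
          · constructor
            · exact ch_mono fun W hW => ⟨hW.2, fun _ => hW.1⟩
            · exact ch_mono fun W hW => ⟨hW.2 hT, hW.1⟩
          · exact L2_75 ex subset_union_left hYG hYE hMc (hM.resolve_right fun h => hMc (hdx h))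
        · have hU' : ∀ W, ¬ U7 K5 (G ∪ R) G univ W := fun W h => hU (h.up hK (subset_univ W))
          have hcov : H8F.Cov5 G univ := by
            refine cov5_of_cv h5 (not_diag_of_LW hGL) ?_
            by_contra h
            refine hU (U7.base fun h6 => h ?_)
            unfold K5 at h6
            rwa [univ_inter] at h6
          have hno' : ¬ ((∃ F ⊆ G, R ⊆ F ∧ ¬ Disc univ F ∧ ∀ v, dg F v = 2) ∨
              (NoCut2 (G ∪ R) ∧ H8F.Cov5 G univ)) := fun h => hno ⟨hT, h⟩
          rw [not_or, not_and] at hno'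
          have hsep : ∃ x y P Q, Sep (G ∪ R) univ x y P Q := by
            by_contra hcon
            push Not at hcon
            exact hno'.2 (noCut2_of_noSep hcon) hcov
          have hdeg : ¬ ∀ v, dg (G ∪ R) v = 2 := fun h => by
            have h5 := eq_of_two subset_union_left hYG hYE (fun v _ => h v)
            exact hno'.1 ⟨G, Subset.rfl, by
              intro e he
              rw [h5]
              exact mem_union_right _ he, hT.1, fun v => by rw [h5]; exact h v⟩
          refine ac_congr (fun t => ?_) (H36R.L1_4 (G ∪ R) hEL hYE hsep hdeg)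
          constructor
          · exact ch_mono fun W hW => ⟨hdx hW, fun _ => Or.inr hW⟩
          · exact ch_mono fun W hW => (hW.2 hT).resolve_left (hU' W)
      · refine ac_congr (fun t => ?_) (H30D.ac_disc G (by
          by_contra hcon
          rw [not_or, not_exists] at hcon
          exact hT hcon))
        constructor
        · exact ch_mono fun W hW => ⟨hW, fun h => absurd h hT⟩
        · exact ch_mono fun W hW => hW.1)
  exact ⟨G, hGL, hGp, hT, hcard, hN⟩

end

/-- THE ONE STATEMENT (form A), from the exchange lemma: for every graph `R` there are `F ≤ H ≤ G` with the following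
properties. `G` is plane in `D` and contains all uncrossed edges of `D`; `H` is 2-connected with exactly `2n - 3` edges;
`F` is 2-regular, all cycles of `F` have length at least `min n 5`; and `F` is a Hamiltonian cycle which contains `R` and
all uncrossed edges, or `G ⊔ R` is 3-connected. -/
theorem mainA_of {n : ℕ} (ex : ExCv (Fin n)) (hn : 4 ≤ n) (D : SimpleDrawing n) (R : SimpleGraph (Fin n)) :
    ∃ G H F : SimpleGraph (Fin n), D.Plane G ∧ unc D ≤ G ∧ H ≤ G ∧ F ≤ H ∧ H.Connected ∧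
      (∀ v, (H.induce {w | w ≠ v}).Connected) ∧ H.edgeSet.ncard = 2 * n - 3 ∧
      (∀ v, (F.neighborSet v).ncard = 2) ∧
      (∀ (v : Fin n) (c : F.Walk v v), c.IsCycle → min n 5 ≤ c.length) ∧
      ((R ≤ F ∧ unc D ≤ F ∧ ∃ (v : Fin n) (c : F.Walk v v), c.IsHamiltonianCycle) ∨
        ∀ u v, ((G ⊔ R).induce {w | w ≠ u ∧ w ≠ v}).Connected) := by
  by_cases h5 : 5 ≤ n
  · obtain ⟨G, hGL, hGP, hT, hm, h⟩ := formD75 ex (H53P.crossT_symm (H53P.table D))
      (H98W.hd_table (H53P.table D)) (by rw [Fintype.card_fin]; exact h5) (H36V.es_sub (R ⊔ unc D))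
    obtain ⟨G, H, F, k1, k2, k3, k4, k5, k6, k7, k8, k9⟩ := H8V.draw_D7five h5 D (R ⊔ unc D) hGL hGP hT hm h
    refine ⟨G ⊔ unc D, H, F, plane_unc D (le_refl _) k1, le_sup_right, k2.trans le_sup_left, k3, k4, k5, k6, k7,
      fun v c hc => le_trans (min_le_right _ _) (k8 v c hc),
      k9.imp (fun h => ⟨le_sup_left.trans h.1, le_sup_right.trans h.1, h.2⟩) ?_⟩
    intro h u v
    rw [sup_assoc, sup_comm (unc D) R]
    exact h u v
  · obtain ⟨G, H, F, k1, k2, k3, k4, k5, k6, k7, k8, k9, -, k10⟩ := main8 hn D R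
    exact ⟨G, H, F, k1, k2, k3, k4, k5, k6, k7, k8, fun v c hc => le_trans (by omega) (k9 v c hc), k10⟩

end H77D5
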