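import Pool.Agent.Lib.H77D4.C
import Pool.Agent.Lib.H40T.R2
import Pool.Agent.Lib.H40T.Q5
import Pool.Agent.Lib.H8F.F5

/-!
# H77D5, file C: covers by cycles of length at least `5`, one cycle, and reductions (MP_33911d, form D5)
-/

set_option autoImplicit false

namespace H77D5

open Finset H98M LD H85TF H75U LD77 H77D4

variable {V : Type*} [DecidableEq V]

/-- `A` lies on one cycle of `E` (the set `S` is its vertex set). -/
def OneCyc (E : Finset (Sym2 V)) (A : Finset V) : Prop :=
  ∃ F ⊆ E, ∃ S : Finset V, S.Nonempty ∧ (∀ v ∈ S, dg F v = 2) ∧ (∀ v, v ∉ S → dg F v = 0) ∧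
    ¬ Disc S F ∧ A ⊆ S

theorem red_aux {E : Finset (Sym2 V)} {Y : Finset V} {x y : V} {Q : Finset V} {F : Finset (Sym2 V)}
    (hF : F ⊆ red E Y x y Q) (hd : ∀ v, dg F v = 0 ∨ dg F v = 2) (hxy : s(x, y) ∈ F) :
    F.erase s(x, y) ⊆ E.erase s(x, y) ∧ dg (F.erase s(x, y)) x = 1 ∧ dg (F.erase s(x, y)) y = 1 ∧
      (∀ v, v ≠ x → v ≠ y → dg (F.erase s(x, y)) v = dg F v) ∧
      ∀ r ∈ Q, dg (F.erase s(x, y)) r = 0 := by
  have hdg := dg_erase hxy
  have hx2 : dg F x = 2 := by
    have := dg_pos hxy
    rcases hd x with h | h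
    · omega
    · exact h
  have hy2 : dg F y = 2 := by
    have := dg_pos' hxy
    rcases hd y with h | h
    · omega
    · exact h
  refine ⟨?_, ?_, ?_, ?_, ?_⟩
  · intro e he
    rw [mem_erase] at he ⊢
    refine ⟨he.1, ?_⟩
    rcases mem_insert.1 (hF he.2) with h | h
    · exact absurd h he.1
    · exact (mem_inter.1 h).1
  · have := hdg x
    rw [if_pos (Or.inl rfl)] at this
    omega
  · have := hdg y
    rw [if_pos (Or.inr rfl)] at this
    omega
  · intro v h1 h2
    have := hdg v
    rw [if_neg (not_or.2 ⟨h1, h2⟩)] at this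
    omega
  · intro r hrQ
    unfold dg
    rw [card_eq_zero, filter_eq_empty_iff]
    intro e he hre
    rw [mem_erase] at he
    rcases mem_insert.1 (hF he.2) with h | h
    · exact he.1 h
    · exact (mem_sdiff.1 (mem_sym2_iff.1 (mem_inter.1 h).2 r hre)).2 hrQ

/-- A cover of the reduction by cycles of length at least five gives a cover of the graph. -/
theorem cov5_red {E : Finset (Sym2 V)} {Y : Finset V} {x y : V} {P Q A : Finset V}
    (hT : TCY E Y) (hs : Sep E Y x y P Q) (h : H8F.Cov5 (red E Y x y Q) A) : H8F.Cov5 E A := by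
  obtain ⟨F, hF, hd, ht, hq, hA⟩ := h
  by_cases hxy : s(x, y) ∈ F
  · obtain ⟨hE0, hx1, hy1, hv0, hr0⟩ := red_aux hF hd hxy
    have hT' := tcy_erase hT hs
    have hs' : Sep (E.erase s(x, y)) Y x y P Q := hs.anti (erase_subset _ _)
    obtain ⟨p, hp, hpQ⟩ := H40T.base_path hT' hs'.symm
    have e1 : ∀ e ∈ F.erase s(x, y),
        e ∈ (SimpleGraph.fromEdgeSet ((E.erase s(x, y) : Finset (Sym2 V)) : Set (Sym2 V))).edgeSet := by
      intro e he
      rw [SimpleGraph.edgeSet_fromEdgeSet]
      exact ⟨hE0 he, hT'.loop e (hE0 he)⟩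
    have e2 : H40T.TF (F.erase s(x, y)) := fun a b c h1 h2 h3 =>
      ht a b c (mem_of_mem_erase h1) (mem_of_mem_erase h2) (mem_of_mem_erase h3)
    have e3 : H40T.QF (F.erase s(x, y)) := fun a b c d h1 h2 h3 h4 h5 h6 =>
      hq a b c d h1 h2 (mem_of_mem_erase h3) (mem_of_mem_erase h4) (mem_of_mem_erase h5) (mem_of_mem_erase h6)
    have e4 : ∀ z, s(x, z) ∈ F.erase s(x, y) → s(z, y) ∉ F.erase s(x, y) := fun z h1 h2 =>
      ht x z y (mem_of_mem_erase h1) (mem_of_mem_erase h2) hxy
    have e5 : (SimpleGraph.fromEdgeSet ((E.erase s(x, y) : Finset (Sym2 V)) : Set (Sym2 V))).Adj x y →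
        ∀ u v, u ≠ y → v ≠ x → s(x, u) ∈ F.erase s(x, y) → s(u, v) ∈ F.erase s(x, y) →
          s(v, y) ∉ F.erase s(x, y) := by
      intro h
      rw [SimpleGraph.fromEdgeSet_adj] at h
      exact absurd rfl (mem_erase.1 (mem_coe.1 h.1)).1
    have e6 : ∀ v, v ≠ x → v ≠ y → dg (F.erase s(x, y)) v = 0 ∨ dg (F.erase s(x, y)) v = 2 := by
      intro v h1 h2
      rw [hv0 v h1 h2]
      exact hd v
    have e7 : ∀ v ∈ p.support, v ≠ x → v ≠ y → dg (F.erase s(x, y)) v = 0 := by
      intro v hv h1 h2
      rcases hpQ v hv with h | h | h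
      · exact absurd h h1
      · exact absurd h h2
      · exact hr0 v h
    obtain ⟨F', h1, h2, h3, h4, h5, h6, h7⟩ := H40T.close5 _ p hp hs.ne (F.erase s(x, y)) e1 e2 e3
      hx1 hy1 (notMem_erase _ _) e4 e5 e6 e7
    refine ⟨F', ?_, h5, h3, h4, ?_⟩
    · intro e he
      have h8 := h1 e he
      rw [SimpleGraph.edgeSet_fromEdgeSet] at h8
      exact mem_of_mem_erase (mem_coe.1 h8.1)
    · intro v hv
      by_cases hvx : v = x
      · rw [hvx]; exact h6
      · by_cases hvy : v = y
        · rw [hvy]; exact h7
        · have h8 : dg (F.erase s(x, y)) v ≤ dg F' v := H91P.dg_mono h2 v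
          rw [hv0 v hvx hvy, hA v hv] at h8
          rcases h5 v with h | h
          · have h9 : dg F' v = 0 := h
            omega
          · exact h
  · refine ⟨F, fun e he => ?_, hd, ht, hq, hA⟩
    rcases mem_insert.1 (hF he) with h | h
    · exact absurd (h ▸ he) hxy
    · exact (mem_inter.1 h).1

/-- A cycle of the reduction gives a cycle of the graph. -/
theorem onecyc_red {E : Finset (Sym2 V)} {Y : Finset V} {x y : V} {P Q A : Finset V}
    (hT : TCY E Y) (hs : Sep E Y x y P Q) (h : OneCyc (red E Y x y Q) A) : OneCyc E A := by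
  classical
  obtain ⟨F, hF, S, hS0, hS2, hSn, hconn, hA⟩ := h
  have hd : ∀ v, dg F v = 0 ∨ dg F v = 2 := by
    intro v
    by_cases hv : v ∈ S
    · exact Or.inr (hS2 v hv)
    · exact Or.inl (hSn v hv)
  by_cases hxy : s(x, y) ∈ F
  · obtain ⟨hE0, hx1, hy1, hv0, hr0⟩ := red_aux hF hd hxy
    have hT' := tcy_erase hT hs
    have hs' : Sep (E.erase s(x, y)) Y x y P Q := hs.anti (erase_subset _ _)
    obtain ⟨p, hp, hpQ⟩ := H40T.base_path hT' hs'.symm
    obtain ⟨a1, a2, a3, a4⟩ := H40T.path_dg p hp hs.ne
    have hxS : x ∈ S := by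
      by_contra h
      have := hSn x h
      have := dg_pos hxy
      omega
    have hyS : y ∈ S := by
      by_contra h
      have := hSn y h
      have := dg_pos' hxy
      omega
    have hpe : ∀ e ∈ p.edges, e ∈ E.erase s(x, y) := by
      intro e he
      have h8 := p.edges_subset_edgeSet he
      rw [SimpleGraph.edgeSet_fromEdgeSet] at h8
      exact mem_coe.1 h8.1
    have hdisj : ∀ e ∈ F.erase s(x, y), e ∉ p.edges.toFinset := by
      intro e he hep
      rw [List.mem_toFinset] at hep
      have hemem : ∀ v ∈ e, v = x ∨ v = y := by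
        intro v hv
        have hvp : v ∈ p.support := by
          revert hep hv
          induction e using Sym2.ind with
          | _ a b =>
            intro hep hv
            rcases Sym2.mem_iff.1 hv with h | h
            · rw [h]; exact p.fst_mem_support_of_mem_edges hep
            · rw [h]; exact p.snd_mem_support_of_mem_edges hep
        rcases hpQ v hvp with h | h | h
        · exact Or.inl h
        · exact Or.inr h
        · exfalso
          have h1 := hr0 v h
          unfold dg at h1
          rw [card_eq_zero, filter_eq_empty_iff] at h1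
          exact h1 he hv
      have hloop := hT'.loop e (hE0 he)
      have hne := (mem_erase.1 he).1
      revert hemem hloop hne
      induction e using Sym2.ind with
      | _ a b =>
        intro hemem hloop hne
        rw [Sym2.mk_isDiag_iff] at hloop
        rcases hemem a (by simp) with h1 | h1 <;> rcases hemem b (by simp) with h2 | h2
        · exact hloop (h1.trans h2.symm)
        · exact hne (by rw [h1, h2])
        · exact hne (by rw [h1, h2, Sym2.eq_swap])
        · exact hloop (h1.trans h2.symm)
    have hun : ∀ v, dg (F.erase s(x, y) ∪ p.edges.toFinset) v =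
        dg (F.erase s(x, y)) v + dg p.edges.toFinset v := fun v => H40T.dg_union hdisj v
    have hpx : x ∈ p.support := p.start_mem_support
    have hpy : y ∈ p.support := p.end_mem_support
    have b1 : dg p.edges.toFinset x = 1 := a1
    have b2 : dg p.edges.toFinset y = 1 := a2
    have b3 : ∀ v ∈ p.support, v ≠ x → v ≠ y → dg p.edges.toFinset v = 2 := a3
    have b4 : ∀ v, v ∉ p.support → dg p.edges.toFinset v = 0 := a4
    refine ⟨F.erase s(x, y) ∪ p.edges.toFinset, ?_, S ∪ p.support.toFinset, ?_, ?_, ?_, ?_, ?_⟩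
    · intro e he
      rcases mem_union.1 he with h | h
      · exact mem_of_mem_erase (hE0 h)
      · exact mem_of_mem_erase (hpe e (List.mem_toFinset.1 h))
    · exact hS0.mono subset_union_left
    · intro v hv
      rw [hun v]
      by_cases hvx : v = x
      · rw [hvx, hx1, b1]
      · by_cases hvy : v = y
        · rw [hvy, hy1, b2]
        · by_cases hvp : v ∈ p.support
          · rw [b3 v hvp hvx hvy]
            rcases hpQ v hvp with h | h | h
            · exact absurd h hvx
            · exact absurd h hvy
            · rw [hr0 v h]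
          · rw [b4 v hvp, hv0 v hvx hvy]
            rcases mem_union.1 hv with h | h
            · rw [hS2 v h]
            · exact absurd (List.mem_toFinset.1 h) hvp
    · intro v hv
      rw [mem_union, not_or, List.mem_toFinset] at hv
      have hvx : v ≠ x := fun h => hv.1 (h ▸ hxS)
      have hvy : v ≠ y := fun h => hv.1 (h ▸ hyS)
      rw [hun v, b4 v hv.2, hv0 v hvx hvy, hSn v hv.1]
    · have key : ∀ C D : Finset V, D.Nonempty → Disjoint C D → C ∪ D = S ∪ p.support.toFinset →
          (∀ a ∈ C, ∀ b ∈ D, s(a, b) ∉ F.erase s(x, y) ∪ p.edges.toFinset) → x ∈ C → False := by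
        intro C D hD hCD hun' hno hxC
        have hpC : ∀ v ∈ p.support, v ∈ C := by
          refine H40T.walk_stay (C := F.erase s(x, y) ∪ p.edges.toFinset) hno p ?_ ?_ hxC
          · intro e he
            exact mem_union_right _ (List.mem_toFinset.2 he)
          · intro v hv
            exact mem_union.1 (by rw [hun']; exact mem_union_right _ (List.mem_toFinset.2 hv))
        have hDS : D ⊆ S := by
          intro v hv
          have h8 : v ∈ S ∪ p.support.toFinset := by rw [← hun']; exact mem_union_right _ hv
          rcases mem_union.1 h8 with h | h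
          · exact h
          · exact absurd hv (disjoint_left.1 hCD (hpC v (List.mem_toFinset.1 h)))
        refine hconn ⟨C ∩ S, D, ⟨x, mem_inter.2 ⟨hxC, hxS⟩⟩, hD, ?_, ?_, ?_⟩
        · exact disjoint_of_subset_left inter_subset_left hCD
        · ext v
          constructor
          · intro hv
            rcases mem_union.1 hv with h | h
            · exact (mem_inter.1 h).2
            · exact hDS h
          · intro hv
            have h8 : v ∈ C ∪ D := by rw [hun']; exact mem_union_left _ hv
            rcases mem_union.1 h8 with h | h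
            · exact mem_union_left _ (mem_inter.2 ⟨h, hv⟩)
            · exact mem_union_right _ h
        · intro a ha b hb hab
          by_cases he : s(a, b) = s(x, y)
          · rw [Sym2.eq_iff] at he
            rcases he with ⟨-, h2⟩ | ⟨-, h2⟩
            · exact disjoint_left.1 hCD (hpC y hpy) (h2 ▸ hb)
            · exact disjoint_left.1 hCD hxC (h2 ▸ hb)
          · exact hno a (mem_inter.1 ha).1 b hb (mem_union_left _ (mem_erase.2 ⟨he, hab⟩))
      rintro ⟨C, D, hC, hD, hCD, hun', hno⟩
      have hx8 : x ∈ C ∪ D := by rw [hun']; exact mem_union_left _ hxS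
      rcases mem_union.1 hx8 with h | h
      · exact key C D hD hCD hun' hno h
      · refine key D C hC hCD.symm (by rw [union_comm]; exact hun') (fun a ha b hb hab => ?_) h
        refine hno b hb a ha ?_
        have h9 : s(b, a) = s(a, b) := Sym2.eq_swap
        rw [h9]
        exact hab
    · exact hA.trans subset_union_left
  · refine ⟨F, fun e he => ?_, S, hS0, hS2, hSn, hconn, hA⟩
    rcases mem_insert.1 (hF he) with h | h
    · exact absurd (h ▸ he) hxy
    · exact (mem_inter.1 h).1

end H77D5
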