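import Pool.Agent.Lib.H77D4.Unc
import Pool.Agent.Lib.H36V.Cor7
import Pool.Agent.Lib.H8V.Fun5R
import Pool.Agent.Lib.H98W.FIN

/-!
# H77D5, file Main: plane 3-connected subdrawings with a 2-factor, relative to any graph, with all uncrossed edges
# (MP_33911d)
-/

set_option autoImplicit false

open H53P SimpleDraw

namespace H77D5

open Finset H98P H98Z H98M H63F H30F H63L H97W H85TF H98TF H36V H77D4

/-- The case where `R` consists of uncrossed edges, with cycles of length at least five. -/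
theorem main_unc {n : ℕ} (cf : H47G5.CycFacts (Fin n)) (h5 : 5 ≤ n) (D : SimpleDrawing n) :
    ∃ G H F : SimpleGraph (Fin n), D.Plane G ∧ unc D ≤ G ∧ H ≤ G ∧ F ≤ H ∧ H.Connected ∧
      (∀ v, (H.induce {w | w ≠ v}).Connected) ∧ H.edgeSet.ncard = 2 * n - 3 ∧
      (∀ v, (F.neighborSet v).ncard = 2) ∧
      (∀ (v : Fin n) (c : F.Walk v v), c.IsCycle → 5 ≤ c.length) ∧
      ((unc D ≤ F ∧ ∃ (v : Fin n) (c : F.Walk v v), c.IsHamiltonianCycle) ∨
        ∀ u v, (G.induce {w | w ≠ u ∧ w ≠ v}).Connected) := by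
  have hU := es_sub (unc D)
  obtain ⟨G, hGL, hGP, hT, hm, h⟩ := H8V.formD5R cf (H53P.crossT_symm (H53P.table D))
    (H98W.hd_table (H53P.table D)) (by rw [Fintype.card_fin]; exact h5) hU
  have hGL1 : G ∪ es (unc D) ⊆ LW univ := union_subset hGL hU
  have hd := not_diag_of_LW hGL1
  have hT1 : TC (G ∪ es (unc D)) := tc_mono subset_union_left hT
  have hm1 : 2 * Fintype.card (Fin n) ≤ (G ∪ es (unc D)).card + 3 := by
    have := card_le_card (subset_union_left : G ⊆ G ∪ es (unc D))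
    omega
  have hP : D.Plane (gr (G ∪ es (unc D))) := by
    rw [gr_union, gr_es]
    exact plane_unc D (le_refl _) (plane_of D hGP)
  have hUG : unc D ≤ gr (G ∪ es (unc D)) := by
    rw [gr_union, gr_es]
    exact le_sup_right
  rcases h with ⟨G0, hG0, hc, h2⟩ | ⟨hN, F, hF, -, hnt, hnq, h2⟩
  · have hF : G0 ∪ es (unc D) ⊆ G ∪ es (unc D) := union_subset_union_left hG0
    have hdF : ∀ e ∈ G0 ∪ es (unc D), ¬ e.IsDiag := fun e he => hd e (hF he)
    obtain ⟨H, g2, g3, g4, g5, g6⟩ := layer2' (by omega) hGL1 hT1 hF (fun v => (h2 v).le) hm1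
    refine ⟨gr (G ∪ es (unc D)), H, gr (G0 ∪ es (unc D)), hP, hUG, g2, g6, g3, g4, g5,
      fun v => (degree_gr hdF v).trans (h2 v), fun v c hcyc =>
      H8V.five_le_gr (nt_of_ham (by rw [Fintype.card_fin]; omega) hdF hc h2)
        (H8V.nq_of_ham (by rw [Fintype.card_fin]; exact h5) hdF hc h2) c hcyc,
      Or.inl ⟨?_, ⟨0, by omega⟩, ham_gr (by omega) hdF hc h2 _⟩⟩
    rw [gr_union, gr_es]
    exact le_sup_right
  · have hdF : ∀ e ∈ F, ¬ e.IsDiag := fun e he => hd e (hF he)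
    obtain ⟨H, g2, g3, g4, g5, g6⟩ := layer2' (by omega) hGL1 hT1 hF
      (fun v => (h2 v (mem_univ v)).le) hm1
    exact ⟨gr (G ∪ es (unc D)), H, gr F, hP, hUG, g2, g6, g3, g4, g5,
      fun v => (degree_gr hdF v).trans (h2 v (mem_univ v)),
      fun v c hcyc => H8V.five_le_gr hnt hnq c hcyc, Or.inr (conn3 (by omega) hT1 hN)⟩

/-- THE ONE STATEMENT: for every graph `R` there are `F ≤ H ≤ G` with the following properties. `G` is plane in `D` and
contains all uncrossed edges of `D`; `H` is 2-connected with exactly `2n - 3` edges; `F` is 2-regular, all cycles of `F`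
have length at least 4, and at least `min n 5` if `R` consists of uncrossed edges (for example `R = ⊥`); and `F` is a
Hamiltonian cycle which contains `R` and all uncrossed edges, or `G ⊔ R` is 3-connected. -/
theorem main {n : ℕ} (cf : H47G5.CycFacts (Fin n)) (hn : 4 ≤ n) (D : SimpleDrawing n) (R : SimpleGraph (Fin n)) :
    ∃ G H F : SimpleGraph (Fin n), D.Plane G ∧ unc D ≤ G ∧ H ≤ G ∧ F ≤ H ∧ H.Connected ∧
      (∀ v, (H.induce {w | w ≠ v}).Connected) ∧ H.edgeSet.ncard = 2 * n - 3 ∧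
      (∀ v, (F.neighborSet v).ncard = 2) ∧
      (∀ (v : Fin n) (c : F.Walk v v), c.IsCycle → 4 ≤ c.length) ∧
      (R ≤ unc D → ∀ (v : Fin n) (c : F.Walk v v), c.IsCycle → min n 5 ≤ c.length) ∧
      ((R ≤ F ∧ unc D ≤ F ∧ ∃ (v : Fin n) (c : F.Walk v v), c.IsHamiltonianCycle) ∨
        ∀ u v, ((G ⊔ R).induce {w | w ≠ u ∧ w ≠ v}).Connected) := by
  by_cases hR : R ≤ unc D ∧ 5 ≤ n
  · obtain ⟨G, H, F, k1, k2, k3, k4, k5, k6, k7, k8, k9, k10⟩ := main_unc cf hR.2 D
    refine ⟨G, H, F, k1, k2, k3, k4, k5, k6, k7, k8, fun v c hc => le_trans (by omega) (k9 v c hc),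
      fun _ v c hc => le_trans (min_le_right _ _) (k9 v c hc), k10.imp (fun h => ⟨hR.1.trans h.1, h.1, h.2⟩) ?_⟩
    intro h u v
    rw [sup_eq_left.2 (hR.1.trans k2)]
    exact h u v
  · obtain ⟨G, hGL, hGP, hT, hm, h⟩ := H36V.formD7 (H53P.crossT_symm (H53P.table D))
      (H98W.hd_table (H53P.table D)) (by rw [Fintype.card_fin]; exact hn) (H36V.es_sub (R ⊔ unc D))
    obtain ⟨G, H, F, k1, k2, k3, k4, k5, k6, k7, k8, k9⟩ := H36V.draw_D7 hn D (R ⊔ unc D) hGL hGP hT hm h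
    refine ⟨G ⊔ unc D, H, F, plane_unc D (le_refl _) k1, le_sup_right, k2.trans le_sup_left, k3, k4, k5, k6, k7, k8,
      fun hR' v c hc => ?_, k9.imp (fun h => ⟨le_sup_left.trans h.1, le_sup_right.trans h.1, h.2⟩) ?_⟩
    · have h1 : ¬ 5 ≤ n := fun h => hR ⟨hR', h⟩
      exact le_trans (by omega) (k8 v c hc)
    · intro h u v
      rw [sup_assoc, sup_comm (unc D) R]
      exact h u v

end H77D5
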