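import Pool.Agent.Lib.H77D5.E
import Pool.Agent.Lib.H77D5.Main
import Pool.Agent.Lib.H24A.B
import Pool.Agent.Lib.H63B.B
import Pool.Agent.Lib.H33DC.D2

/-!
# H77D5, file CF: the facts on cycles, and the one statement of form D8 without hypotheses (MP_33911d)
-/

set_option autoImplicit false

open H53P SimpleDraw

namespace H77D5

open H77D4

/-- The facts on cycles. -/
theorem cf (V : Type) [Fintype V] [DecidableEq V] : H47G5.CycFacts V where
  pair _ _ _ _ hT ha hb := H24A.oneCyc_two hT ha hb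
  base _ _ _ hT hno h5 h := H63B.oneCyc_cov5 hT hno h5 h
  red _ _ _ _ _ _ _ hT hs h := cv_red hT hs h
  four _ _ hT h4 := H33DC.oneCyc_small hT h4
  cyc _ _ hT h2 := oneCyc_all hT h2

/-- THE ONE STATEMENT. -/
theorem main8 {n : ℕ} (hn : 4 ≤ n) (D : SimpleDrawing n) (R : SimpleGraph (Fin n)) :
    ∃ G H F : SimpleGraph (Fin n), D.Plane G ∧ unc D ≤ G ∧ H ≤ G ∧ F ≤ H ∧ H.Connected ∧
      (∀ v, (H.induce {w | w ≠ v}).Connected) ∧ H.edgeSet.ncard = 2 * n - 3 ∧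
      (∀ v, (F.neighborSet v).ncard = 2) ∧
      (∀ (v : Fin n) (c : F.Walk v v), c.IsCycle → 4 ≤ c.length) ∧
      (R ≤ unc D → ∀ (v : Fin n) (c : F.Walk v v), c.IsCycle → min n 5 ≤ c.length) ∧
      ((R ≤ F ∧ unc D ≤ F ∧ ∃ (v : Fin n) (c : F.Walk v v), c.IsHamiltonianCycle) ∨
        ∀ u v, ((G ⊔ R).induce {w | w ≠ u ∧ w ≠ v}).Connected) :=
  main (cf (Fin n)) hn D R

end H77D5
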