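import Pool.Agent.Lib.H77D5.Abs7
import Pool.Agent.Lib.H40B5.C
import Pool.Agent.Lib.H40T.R

/-!
# H77D5, file Ex: the exchange lemma for sets on one cycle or on disjoint cycles of length at least five, in every
# 2-connected graph (MP_33911d; proof of helper41)
-/

set_option autoImplicit false
set_option linter.unusedSectionVars false

namespace H77D5

open Finset H98M H85TF LD H47G5 H40B5

variable {V : Type} [Fintype V] [DecidableEq V]

/-- the first vertex of `S` on a walk -/
theorem first_hit {G : SimpleGraph V} {S : Finset V} {u s : V} (p : G.Walk u s) : u ∉ S → s ∈ S →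
    ∃ c ∈ S, ∃ q : G.Walk u c, q.IsPath ∧ (∀ v ∈ q.support, v ∈ p.support) ∧
      ∀ v ∈ q.support, v ∈ S → v = c := by
  classical
  suffices h : u ∉ S → s ∈ S → ∃ c ∈ S, ∃ q : G.Walk u c, (∀ v ∈ q.support, v ∈ p.support) ∧
      ∀ v ∈ q.support, v ∈ S → v = c by
    intro h1 h2
    obtain ⟨c, hc, q, h3, h4⟩ := h h1 h2
    exact ⟨c, hc, q.bypass, q.bypass_isPath, fun v hv => h3 v (q.support_bypass_subset hv),
      fun v hv => h4 v (q.support_bypass_subset hv)⟩
  induction p with
  | nil => intro h1 h2; exact absurd h2 h1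
  | @cons x y z hxy p ih =>
    intro h1 h2
    by_cases hy : y ∈ S
    · refine ⟨y, hy, SimpleGraph.Walk.cons hxy SimpleGraph.Walk.nil, ?_, ?_⟩
      · intro v hv
        rw [SimpleGraph.Walk.support_cons, List.mem_cons, SimpleGraph.Walk.support_nil, List.mem_singleton] at hv
        rw [SimpleGraph.Walk.support_cons, List.mem_cons]
        rcases hv with h | h
        · exact Or.inl h
        · right; rw [h]; exact p.start_mem_support
      · intro v hv hvS
        rw [SimpleGraph.Walk.support_cons, List.mem_cons, SimpleGraph.Walk.support_nil, List.mem_singleton] at hv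
        rcases hv with h | h
        · exact absurd (h ▸ hvS) h1
        · exact h
    · obtain ⟨c, hc, q, h3, h4⟩ := ih hy h2
      refine ⟨c, hc, SimpleGraph.Walk.cons hxy q, ?_, ?_⟩
      · intro v hv
        rw [SimpleGraph.Walk.support_cons, List.mem_cons] at hv ⊢
        exact hv.imp id (h3 v)
      · intro v hv hvS
        rw [SimpleGraph.Walk.support_cons, List.mem_cons] at hv
        rcases hv with h | h
        · exact absurd (h ▸ hvS) h1
        · exact h4 v h hvS

/-- a path from a vertex outside of `S` to `S - b` -/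
theorem attach {E : Finset (Sym2 V)} {Y S : Finset V} {b s u : V} (hT : TCY E Y) (hS : S ⊆ Y) (hb : b ∈ S)
    (hs : s ∈ S) (hsb : s ≠ b) (hu : u ∈ Y) (huS : u ∉ S) :
    ∃ c ∈ S, c ≠ b ∧ ∃ q : (SimpleGraph.fromEdgeSet (E : Set (Sym2 V))).Walk u c, q.IsPath ∧
      (∀ v ∈ q.support, v ∈ S → v = c) ∧ b ∉ q.support := by
  have hub : u ≠ b := fun h => huS (h ▸ hb)
  obtain ⟨p, -, hp⟩ := path_of_not_disc (hT.conn' b (hS hb)) (mem_erase.2 ⟨hub, hu⟩)
    (mem_erase.2 ⟨hsb, hS hs⟩)
  obtain ⟨c, hc, q, h1, h2, h3⟩ := first_hit p huS hs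
  have h4 : ∀ v ∈ q.support, v ≠ b := fun v hv => (mem_erase.1 (hp v (h2 v hv))).1
  exact ⟨c, hc, h4 c q.end_mem_support, q, h1, h3, fun h => h4 b h rfl⟩

theorem adjE {E : Finset (Sym2 V)} {Y : Finset V} (hT : TCY E Y) {a b : V} (h : s(a, b) ∈ E) :
    (SimpleGraph.fromEdgeSet (E : Set (Sym2 V))).Adj a b := by
  rw [SimpleGraph.fromEdgeSet_adj]
  exact ⟨mem_coe.2 h, fun e => hT.loop _ h (by rw [Sym2.mk_isDiag_iff]; exact e)⟩

theorem cycOn_of_isCyc {E F : Finset (Sym2 V)} {S : Finset V} (h : H24A.IsCyc E F S) : CycOn E F S where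
  sub := h.1
  two v hv := (h.2.2.1 v).1 hv
  zero v hv := (h.2.1 v).resolve_right fun h2 => hv ((h.2.2.1 v).2 h2)
  conn := h.2.2.2

theorem one_of_cycOn {E F : Finset (Sym2 V)} {S B : Finset V} (h : CycOn E F S) (hS : S.Nonempty) (hB : B ⊆ S) :
    H47G5.OneCyc E B :=
  one_of ⟨F, h.sub, S, hS, h.two, h.zero, h.conn, hB⟩

/-- a cycle of length at most four with two vertices which are not adjacent on it -/
theorem quad_of {E F : Finset (Sym2 V)} {S : Finset V} (h : CycOn E F S) (hE : ∀ e ∈ E, ¬ e.IsDiag)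
    (h4 : S.card ≤ 4) {b c : V} (hb : b ∈ S) (hc : c ∈ S) (hcb : c ≠ b) (hbc : s(b, c) ∉ F) :
    ∃ x y, x ≠ y ∧ x ≠ b ∧ x ≠ c ∧ y ≠ b ∧ y ≠ c ∧ (∀ v, v ∈ S ↔ v = b ∨ v = x ∨ v = c ∨ v = y) ∧
      s(b, x) ∈ F ∧ s(b, y) ∈ F ∧ s(c, x) ∈ F ∧ s(c, y) ∈ F := by
  have ne : ∀ {a b : V}, s(a, b) ∈ F → a ≠ b := fun hab e => hE _ (h.sub hab) (by
    rw [Sym2.mk_isDiag_iff]; exact e)
  obtain ⟨x, y, hxy, hx, hy⟩ := H40T.two_nb (E := F) (w := b) (h.two b hb)
  obtain ⟨p, q, hpq, hp, hq⟩ := H40T.two_nb (E := F) (w := c) (h.two c hc)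
  have hxb := (ne hx).symm
  have hyb := (ne hy).symm
  have hxc : x ≠ c := fun e => hbc (e ▸ hx)
  have hyc : y ≠ c := fun e => hbc (e ▸ hy)
  have hsub : ({b, x, c, y} : Finset V) ⊆ S := by
    intro v hv
    simp only [mem_insert, mem_singleton] at hv
    rcases hv with rfl | rfl | rfl | rfl
    · exact hb
    · exact h.right hx
    · exact hc
    · exact h.right hy
  have hcard : ({b, x, c, y} : Finset V).card = 4 := by
    rw [card_insert_of_notMem, card_insert_of_notMem, card_pair hyc.symm]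
    · simp only [mem_insert, mem_singleton, not_or]
      exact ⟨hxc, hxy⟩
    · simp only [mem_insert, mem_singleton, not_or]
      exact ⟨hxb.symm, hcb.symm, hyb.symm⟩
  have hSe : ({b, x, c, y} : Finset V) = S := eq_of_subset_of_card_le hsub (by omega)
  have hmem : ∀ v, v ∈ S ↔ v = b ∨ v = x ∨ v = c ∨ v = y := by
    intro v
    rw [← hSe]
    simp only [mem_insert, mem_singleton]
  have side : ∀ {p : V}, s(c, p) ∈ F → p = x ∨ p = y := by
    intro p hp
    rcases (hmem p).1 (h.right hp) with e | e | e | e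
    · exact absurd (by rw [Sym2.eq_swap, ← e]; exact hp) hbc
    · exact Or.inl e
    · exact absurd e.symm (ne hp)
    · exact Or.inr e
  refine ⟨x, y, hxy, hxb, hxc, hyb, hyc, hmem, hx, hy, ?_, ?_⟩
  · rcases side hp with e | e
    · exact e ▸ hp
    · rcases side hq with e2 | e2
      · exact e2 ▸ hq
      · exact absurd (e.trans e2.symm) hpq
  · rcases side hp with e | e
    · rcases side hq with e2 | e2
      · exact absurd (e.trans e2.symm) hpq
      · exact e2 ▸ hq
    · exact e ▸ hp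

end H77D5
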