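import Pool.Agent.Lib.H77D5.Abs7
import Pool.Agent.Lib.H41CV.D

/-!
# H77D5, file Fin: the one statement of MP_33911d (form A), without hypotheses
-/

set_option autoImplicit false

open H53P SimpleDraw

namespace H77D5

open H77D4

theorem exCv (V : Type) [Fintype V] [DecidableEq V] : ExCv V := by
  intro E Y A U b d hT _ _ hbU hdU hU hb hd hin
  exact H41CV.exch_cv hT A b d U hb hd hbU hdU hU hin

/-- THE ONE STATEMENT (form A): for every graph `R` there are `F ≤ H ≤ G` with the following properties. `G` is plane in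
`D` and contains all uncrossed edges of `D`; `H` is 2-connected with exactly `2n - 3` edges; `F` is 2-regular, all cycles
of `F` have length at least `min n 5`; and `F` is a Hamiltonian cycle which contains `R` and all uncrossed edges, or
`G ⊔ R` is 3-connected. -/
theorem mainA {n : ℕ} (hn : 4 ≤ n) (D : SimpleDrawing n) (R : SimpleGraph (Fin n)) :
    ∃ G H F : SimpleGraph (Fin n), D.Plane G ∧ unc D ≤ G ∧ H ≤ G ∧ F ≤ H ∧ H.Connected ∧
      (∀ v, (H.induce {w | w ≠ v}).Connected) ∧ H.edgeSet.ncard = 2 * n - 3 ∧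
      (∀ v, (F.neighborSet v).ncard = 2) ∧
      (∀ (v : Fin n) (c : F.Walk v v), c.IsCycle → min n 5 ≤ c.length) ∧
      ((R ≤ F ∧ unc D ≤ F ∧ ∃ (v : Fin n) (c : F.Walk v v), c.IsHamiltonianCycle) ∨
        ∀ u v, ((G ⊔ R).induce {w | w ≠ u ∧ w ≠ v}).Connected) :=
  mainA_of (exCv (Fin n)) hn D R

end H77D5
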